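import Mathlib
import Pool.Agent.Run7.h164.GP

/-!
# Parametrizations of the very general Gushel-Mukai fourfold by polynomials with given exponents

The degree of a parametrization by polynomials in four variables is bounded by the volume of the
Newton polytope: `82 * degree ≤ 5! * volume`; in a parametrization by more variables four of them
can be chosen, and if `5! * volume < 164` for the projections of the Newton polytope to all choices
of four coordinates then the fourfold is rational, for instance if it is dominated by a map given by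
polynomials of degree at most one in each of any number of variables.
-/

set_option autoImplicit false

namespace Pool.Agent.Results.MP_274aea_ag.NewtonPolytopeBound

open MvPolynomial Run7.h164.GM

/-- The homomorphism `φ` from the coordinate ring of the chart to the field of rational functions
in `N` variables is injective, and the Plücker coordinates (the maximal minors of `A`, the first of
which is `1`) are mapped to the ratios `g s / g (0, 1)` of the given polynomials: the polynomials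
`g` give a dominant rational map to the fourfold, and `φ` is the pullback. -/
def GivenBy {N : ℕ} {J : Ideal (MvPolynomial (Fin 6) ℂ)}
    (A : Matrix (Fin 2) (Fin 5) (MvPolynomial (Fin 6) ℂ))
    (φ : (MvPolynomial (Fin 6) ℂ ⧸ J) →ₐ[ℂ] FractionRing (MvPolynomial (Fin N) ℂ))
    (g : {p : Fin 5 × Fin 5 // p.1 < p.2} → MvPolynomial (Fin N) ℂ) : Prop :=
  Function.Injective φ ∧ g ⟨(0, 1), by decide⟩ ≠ 0 ∧
    ∀ s : {p : Fin 5 × Fin 5 // p.1 < p.2},
      φ (Ideal.Quotient.mk J (A 0 s.1.1 * A 1 s.1.2 - A 0 s.1.2 * A 1 s.1.1)) *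
        algebraMap (MvPolynomial (Fin N) ℂ) (FractionRing (MvPolynomial (Fin N) ℂ))
          (g ⟨(0, 1), by decide⟩) =
        algebraMap (MvPolynomial (Fin N) ℂ) (FractionRing (MvPolynomial (Fin N) ℂ)) (g s)

/-- The degree of the map: the degree of the field of rational functions over the subfield
generated by the image of the coordinate ring. -/
noncomputable def mapDegree {J : Ideal (MvPolynomial (Fin 6) ℂ)}
    (φ : (MvPolynomial (Fin 6) ℂ ⧸ J) →ₐ[ℂ] FractionRing (MvPolynomial (Fin 4) ℂ)) : ℕ :=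
  Module.finrank (IntermediateField.adjoin ℂ (Set.range φ))
    (FractionRing (MvPolynomial (Fin 4) ℂ))

/-- The four-dimensional volume of the projection of the convex hull of `E` to the coordinates
`f 0, …, f 3`. -/
noncomputable def vol {N : ℕ} (E : Finset (Fin N →₀ ℕ)) (f : Fin 4 → Fin N) : ℝ :=
  (MeasureTheory.volume (convexHull ℝ
    ((fun (a : Fin N →₀ ℕ) (s : Fin 4) => (a (f s) : ℝ)) '' (E : Set (Fin N →₀ ℕ))))).toReal

/-- The polynomials `g` with only four free parameters: the variable `t_(f s)` is the new variable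
number `s`, and every other variable `t_l` gets the constant value `c l`. -/
noncomputable def specialize {N : ℕ} (f : Fin 4 → Fin N) (c : Fin N → ℂ)
    (g : {p : Fin 5 × Fin 5 // p.1 < p.2} → MvPolynomial (Fin N) ℂ) :
    {p : Fin 5 × Fin 5 // p.1 < p.2} → MvPolynomial (Fin 4) ℂ :=
  fun i => aeval (fun l : Fin N =>
    (C (c l) + ∑ s, if f s = l then X s else 0 : MvPolynomial (Fin 4) ℂ)) (g i)

theorem result :
    ∃ P : ℕ → MvPolynomial ({p : Fin 5 × Fin 5 // p.1 < p.2} ⊕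
        ({p : Fin 5 × Fin 5 // p.1 < p.2} × {p : Fin 5 × Fin 5 // p.1 < p.2})) ℂ,
      (∀ n, P n ≠ 0) ∧
      ∀ t : ({p : Fin 5 × Fin 5 // p.1 < p.2} ⊕
          ({p : Fin 5 × Fin 5 // p.1 < p.2} × {p : Fin 5 × Fin 5 // p.1 < p.2})) → ℂ,
        (∀ n, MvPolynomial.eval t (P n) ≠ 0) →
        ∀ A : Matrix (Fin 2) (Fin 5) (MvPolynomial (Fin 6) ℂ),
          A = !![(1 : MvPolynomial (Fin 6) ℂ), 0, X 0, X 1, X 2; 0, 1, X 3, X 4, X 5] →
        ∀ J : Ideal (MvPolynomial (Fin 6) ℂ),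
          J = Ideal.span
            {∑ s : {p : Fin 5 × Fin 5 // p.1 < p.2},
                C (t (Sum.inl s)) * (A 0 s.1.1 * A 1 s.1.2 - A 0 s.1.2 * A 1 s.1.1),
             ∑ s : {p : Fin 5 × Fin 5 // p.1 < p.2}, ∑ s' : {p : Fin 5 × Fin 5 // p.1 < p.2},
                C (t (Sum.inr (s, s'))) *
                  (A 0 s.1.1 * A 1 s.1.2 - A 0 s.1.2 * A 1 s.1.1) *
                  (A 0 s'.1.1 * A 1 s'.1.2 - A 0 s'.1.2 * A 1 s'.1.1)} →
        -- four variables
        (∀ (E : Finset (Fin 4 →₀ ℕ))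
          (φ : (MvPolynomial (Fin 6) ℂ ⧸ J) →ₐ[ℂ] FractionRing (MvPolynomial (Fin 4) ℂ))
          (g : {p : Fin 5 × Fin 5 // p.1 < p.2} → MvPolynomial (Fin 4) ℂ),
          (∀ s, (g s).support ⊆ E) → GivenBy A φ g →
          1 ≤ mapDegree φ ∧ 82 * (mapDegree φ : ℝ) ≤ 120 * vol E id) ∧
        -- any number of variables
        (∀ (N : ℕ) (E : Finset (Fin N →₀ ℕ))
          (φ : (MvPolynomial (Fin 6) ℂ ⧸ J) →ₐ[ℂ] FractionRing (MvPolynomial (Fin N) ℂ))
          (g : {p : Fin 5 × Fin 5 // p.1 < p.2} → MvPolynomial (Fin N) ℂ),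
          (∀ s, (g s).support ⊆ E) → GivenBy A φ g →
          (∃ (f : Fin 4 → Fin N) (c : Fin N → ℂ)
            (φ' : (MvPolynomial (Fin 6) ℂ ⧸ J) →ₐ[ℂ] FractionRing (MvPolynomial (Fin 4) ℂ)),
            Function.Injective f ∧ (∀ s, c (f s) = 0) ∧ GivenBy A φ' (specialize f c g) ∧
            1 ≤ mapDegree φ' ∧ 82 * (mapDegree φ' : ℝ) ≤ 120 * vol E f) ∧
          ((∀ f : Fin 4 → Fin N, Function.Injective f → 120 * vol E f < 164) →
            J.IsPrime ∧ Nonempty (FractionRing (MvPolynomial (Fin 6) ℂ ⧸ J) ≃ₐ[ℂ]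
              FractionRing (MvPolynomial (Fin 4) ℂ)))) ∧
        -- degrees in the single variables
        (∀ (N : ℕ) (k : Fin N → ℕ)
          (φ : (MvPolynomial (Fin 6) ℂ ⧸ J) →ₐ[ℂ] FractionRing (MvPolynomial (Fin N) ℂ))
          (g : {p : Fin 5 × Fin 5 // p.1 < p.2} → MvPolynomial (Fin N) ℂ),
          (∀ s, ∀ a ∈ (g s).support, ∀ l, a l ≤ k l) → GivenBy A φ g →
          (∃ (f : Fin 4 → Fin N) (c : Fin N → ℂ)
            (φ' : (MvPolynomial (Fin 6) ℂ ⧸ J) →ₐ[ℂ] FractionRing (MvPolynomial (Fin 4) ℂ)),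
            Function.Injective f ∧ (∀ s, c (f s) = 0) ∧ GivenBy A φ' (specialize f c g) ∧
            1 ≤ mapDegree φ' ∧ 82 * mapDegree φ' ≤ 120 * ∏ s, k (f s)) ∧
          ((∀ l, k l ≤ 1) →
            J.IsPrime ∧ Nonempty (FractionRing (MvPolynomial (Fin 6) ℂ ⧸ J) ≃ₐ[ℂ]
              FractionRing (MvPolynomial (Fin 4) ℂ)))) := by
  classical
  refine generic _ fun t hinj A hA J hJ => ?_
  subst hA
  have hJ' : J = Ideal.span {Lx (fun i => C (t i)) X, Qx (fun i => C (t i)) X} := hJ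
  have hcpt : ∀ (N : ℕ) (E : Finset (Fin N →₀ ℕ)) (f : Fin 4 → Fin N), IsCompact (convexHull ℝ
      ((fun (a : Fin N →₀ ℕ) (s : Fin 4) => (a (f s) : ℝ)) '' (E : Set (Fin N →₀ ℕ)))) :=
    fun N E f => (E.finite_toSet.image _).isCompact_convexHull (𝕜 := ℝ)
  have four : ∀ (E : Finset (Fin 4 →₀ ℕ)) (φ : (MvPolynomial (Fin 6) ℂ ⧸ J) →ₐ[ℂ]
      FractionRing (MvPolynomial (Fin 4) ℂ))
      (g : {p : Fin 5 × Fin 5 // p.1 < p.2} → MvPolynomial (Fin 4) ℂ),
      (∀ s, (g s).support ⊆ E) → GivenBy (!![(1 : MvPolynomial (Fin 6) ℂ), 0, X 0, X 1, X 2;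
        0, 1, X 3, X 4, X 5]) φ g →
      1 ≤ mapDegree φ ∧ 82 * (mapDegree φ : ℝ) ≤ 120 * vol E id := by
    intro E φ g hE hg
    obtain ⟨hφ, hg0, hrel⟩ := hg
    obtain ⟨hGen, hq, hqpl⟩ := gen_of hinj hJ' φ hφ
    have hrel' : ∀ s, pl (fun i => φ (Ideal.Quotient.mk J (X i))) s * al (g s01) = al (g s) := by
      intro s
      rw [← hqpl]
      exact hrel s
    obtain ⟨h1, h2⟩ := newtG hGen (convex_convexHull ℝ _) (hcpt 4 E id)
      (fun s a ha => subset_convexHull ℝ _ ⟨a, Finset.mem_coe.2 (hE s ha), rfl⟩) hg0 hrel'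
    have hE' := adj_eq φ hq
    have h3 : mapDegree φ = Module.finrank (IntermediateField.adjoin ℂ
        (Set.range fun i => φ (Ideal.Quotient.mk J (X i)))) KK := by
      unfold mapDegree
      rw [hE']
    rw [h3]
    exact ⟨Module.finrank_pos, h2⟩
  have many : ∀ (N : ℕ)
      (φ : (MvPolynomial (Fin 6) ℂ ⧸ J) →ₐ[ℂ] FractionRing (MvPolynomial (Fin N) ℂ))
      (g : {p : Fin 5 × Fin 5 // p.1 < p.2} → MvPolynomial (Fin N) ℂ),
      GivenBy (!![(1 : MvPolynomial (Fin 6) ℂ), 0, X 0, X 1, X 2;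
        0, 1, X 3, X 4, X 5]) φ g →
      ∃ (f : Fin 4 → Fin N) (c : Fin N → ℂ)
        (φ' : (MvPolynomial (Fin 6) ℂ ⧸ J) →ₐ[ℂ] FractionRing (MvPolynomial (Fin 4) ℂ)),
        Function.Injective f ∧ (∀ s, c (f s) = 0) ∧
        GivenBy (!![(1 : MvPolynomial (Fin 6) ℂ), 0, X 0, X 1, X 2;
          0, 1, X 3, X 4, X 5]) φ' (specialize f c g) ∧
        1 ≤ mapDegree φ' ∧ ∀ Q : Set (Fin 4 → ℝ), Convex ℝ Q → IsCompact Q →
          (∀ i, ∀ a ∈ (g i).support, (fun s => (a (f s) : ℝ)) ∈ Q) →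
          82 * (mapDegree φ' : ℝ) ≤ 120 * (MeasureTheory.volume Q).toReal := by
    intro N φ g hg
    obtain ⟨hφ, hg0, hrel⟩ := hg
    obtain ⟨hGen, hq, hqpl⟩ := gen_of hinj hJ' φ hφ
    have hrel' : ∀ s, pl (fun i => φ (Ideal.Quotient.mk J (X i))) s * alN N (g s01) =
        alN N (g s) := by
      intro s
      rw [← hqpl]
      exact hrel s
    obtain ⟨f, c, hf, hc, h01, ξ', hG', hr'⟩ := specGM hGen hg0 hrel'
    obtain ⟨φ', hφ', hq'⟩ := phi_of hJ' hG'
    have h3 : mapDegree φ' = Module.finrank (IntermediateField.adjoin ℂ (Set.range ξ')) KK := by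
      unfold mapDegree
      rw [adj_eq φ' hq']
    have key : ∀ Q : Set (Fin 4 → ℝ), Convex ℝ Q → IsCompact Q →
        (∀ i, ∀ a ∈ (g i).support, (fun s => (a (f s) : ℝ)) ∈ Q) → _ := fun Q hQc hQ h =>
      newtG (g := fun s => aeval (Y196.Sp.spc c f) (g s)) hG' hQc hQ (fun s b hb => by
        obtain ⟨a, ha, rfl⟩ := Y196.Sp.supp_spc hf hc (g s) hb
        exact h s a ha) h01 hr'
    have hfd := (key _ (convex_convexHull ℝ _)
      (hcpt N (Finset.univ.biUnion fun i => (g i).support) f) fun i a ha =>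
        subset_convexHull ℝ _ ⟨a, Finset.mem_coe.2
          (Finset.mem_biUnion.2 ⟨i, Finset.mem_univ _, ha⟩), rfl⟩).1
    refine ⟨f, c, φ', hf, hc, ⟨hφ', h01, fun s => ?_⟩, ?_, fun Q hQc hQ h => ?_⟩
    · have h4 : φ' (Ideal.Quotient.mk J (pl X s)) = pl ξ' s := by
        rw [hq', aeval_pl]
      have h5 := hr' s
      rw [← h4] at h5
      exact h5
    · rw [h3]
      exact Module.finrank_pos
    · rw [h3]
      exact (key Q hQc hQ h).2
  have rat : ∀ φ' : (MvPolynomial (Fin 6) ℂ ⧸ J) →ₐ[ℂ] FractionRing (MvPolynomial (Fin 4) ℂ),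
      Function.Injective φ' → 1 ≤ mapDegree φ' → (82 * (mapDegree φ' : ℝ) < 164) →
      J.IsPrime ∧ Nonempty (FractionRing (MvPolynomial (Fin 6) ℂ ⧸ J) ≃ₐ[ℂ]
              FractionRing (MvPolynomial (Fin 4) ℂ)) := by
    intro φ' hφ' h1 h2
    refine rat_of φ' hφ' ?_
    have h4 : (mapDegree φ' : ℝ) < 2 := by linarith
    have h5 : mapDegree φ' < 2 := by exact_mod_cast h4
    have h6 : mapDegree φ' = 1 := by omega
    exact h6
  refine ⟨four, fun N E φ g hE hg => ?_, fun N k φ g hk hg => ?_⟩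
  · obtain ⟨f, c, φ', hf, hc, hg', h1, h2⟩ := many N φ g hg
    have h3 : 82 * (mapDegree φ' : ℝ) ≤ 120 * vol E f :=
      h2 _ (convex_convexHull ℝ _) (hcpt N E f) fun i a ha =>
        subset_convexHull ℝ _ ⟨a, Finset.mem_coe.2 (hE i ha), rfl⟩
    exact ⟨⟨f, c, φ', hf, hc, hg', h1, h3⟩, fun hvol =>
      rat φ' hg'.1 h1 (h3.trans_lt (hvol f hf))⟩
  · obtain ⟨f, c, φ', hf, hc, hg', h1, h2⟩ := many N φ g hg
    have h3 := h2 (Set.Icc (0 : Fin 4 → ℝ) fun s => (k (f s) : ℝ)) (convex_Icc _ _) isCompact_Icc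
      (fun i a ha => ⟨fun s => Nat.cast_nonneg _, fun s => Nat.cast_le.2 (hk i a ha (f s))⟩)
    rw [Y196.Sp.vol_box fun s => k (f s)] at h3
    have h4 : 82 * mapDegree φ' ≤ 120 * ∏ s, k (f s) := by exact_mod_cast h3
    refine ⟨⟨f, c, φ', hf, hc, hg', h1, h4⟩, fun hk1 => rat φ' hg'.1 h1 ?_⟩
    have h5 : ∏ s, k (f s) ≤ 1 := Finset.prod_le_one' fun s _ => hk1 (f s)
    have h6 : 82 * mapDegree φ' < 164 := by omega
    exact_mod_cast h6

end Pool.Agent.Results.MP_274aea_ag.NewtonPolytopeBound
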