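import Mathlib
import Pool.Agent.Run7.h164.GS

/-!
# Parametrizations of the very general Gushel-Mukai fourfold

A dominant rational map from projective four-space to the very general Gushel-Mukai fourfold, given
by forms of degree `k`, has degree at most `5 J ^ 4 / 82`, where `J ^ 4` is the moving
self-intersection number of the linear system of the first derivatives of the forms, which is at
most `(k - 1) ^ 4`, and less if the forms have multiple points in common; and for every `N` there is
no dominant rational map from projective `N`-space to it given by forms of degree at most three.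
-/

set_option autoImplicit false

namespace Pool.Agent.Results.MP_274aea_ag.ParametrizationDegreeBound

open MvPolynomial Run7.h164.GM
open scoped ENNReal

/-- The linear system spanned by the polynomials `∂ g s / ∂ t_l`, `l = 1, …, 4`, and
`k g s - ∑ t_l ∂ g s / ∂ t_l`. If the `g s` have degree at most `k`, then these are, in the chart
`t_0 = 1`, all first derivatives of the forms of degree `k` in `t_0, …, t_4` given by the `g s`
(the last ones are the derivatives with respect to `t_0`). -/
noncomputable def derivatives (k : ℕ)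
    (g : {p : Fin 5 × Fin 5 // p.1 < p.2} → MvPolynomial (Fin 4) ℂ) :
    Submodule ℂ (MvPolynomial (Fin 4) ℂ) :=
  Submodule.span ℂ (Set.range (fun s => C (k : ℂ) * g s - ∑ l, X l * pderiv l (g s)) ∪
    Set.range fun x : {p : Fin 5 × Fin 5 // p.1 < p.2} × Fin 4 => pderiv x.2 (g x.1))

/-- The moving self-intersection number of a linear system `W` of polynomials in four variables:
`4!` times the growth, as `l` tends to infinity, of the dimension of the space spanned by the
products of `l` elements of `W` and one polynomial of degree at most `c`, divided by `l ^ 4`, for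
large `c`. It is the number of points, outside the base locus, at which four general members of `W`
meet, i.e. the degree of the rational map given by `W` times the degree of its image. -/
noncomputable def selfInt (W : Submodule ℂ (MvPolynomial (Fin 4) ℂ)) : ℝ≥0∞ :=
  ⨆ c : ℕ, Filter.limsup (fun l : ℕ => (Nat.factorial 4 * Module.finrank ℂ
    (restrictTotalDegree (Fin 4) ℂ c * W ^ l : Submodule ℂ (MvPolynomial (Fin 4) ℂ)) : ℝ≥0∞) /
      (l : ℝ≥0∞) ^ 4) Filter.atTop

/-- The forms of degree `k` in `t_0, …, t_4` given by the polynomials `g s` in the chart `t_0 = 1`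
have multiplicity at least `m i` at the coordinate point number `i`, for `i = 0, …, 4`: the `g s`
have degree at most `k`, order at least `m 0` at the origin, and degree at most `k - m l` in the
variable `t_l` for `l = 1, …, 4`. -/
def MultiplicityAt (k : ℕ) (m : Fin 5 → ℕ)
    (g : {p : Fin 5 × Fin 5 // p.1 < p.2} → MvPolynomial (Fin 4) ℂ) : Prop :=
  ∀ s, ∀ a ∈ (g s).support, ∑ l, a l ≤ k ∧ m 0 ≤ ∑ l, a l ∧ ∀ l : Fin 4, a l + m l.succ ≤ k

theorem four_le {k : ℕ} {t : Ix → ℂ} {ξ : Fin 6 → KK} (h : Gen t ξ)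
    {g : Sx → MvPolynomial (Fin 4) ℂ} (hdeg : ∀ s, (g s).totalDegree ≤ k) (hg0 : g s01 ≠ 0)
    (hrel : ∀ s, pl ξ s * al (g s01) = al (g s)) : 4 ≤ k := by
  obtain ⟨h1, h2⟩ := main h hdeg hg0 hrel
  by_contra hk
  have h3 : 1 ≤ Module.finrank (IntermediateField.adjoin ℂ (Set.range ξ)) KK :=
    Module.finrank_pos
  have h4 : (k - 1) ^ 4 ≤ 2 ^ 4 := Nat.pow_le_pow_left (by omega) 4
  have h5 : Module.finrank (IntermediateField.adjoin ℂ (Set.range ξ)) KK * 82 ≤
    5 * (k - 1) ^ 4 := h2
  omega

theorem result :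
    ∃ P : ℕ → MvPolynomial ({p : Fin 5 × Fin 5 // p.1 < p.2} ⊕
        ({p : Fin 5 × Fin 5 // p.1 < p.2} × {p : Fin 5 × Fin 5 // p.1 < p.2})) ℂ,
      (∀ n, P n ≠ 0) ∧
      ∀ t : ({p : Fin 5 × Fin 5 // p.1 < p.2} ⊕
          ({p : Fin 5 × Fin 5 // p.1 < p.2} × {p : Fin 5 × Fin 5 // p.1 < p.2})) → ℂ,
        (∀ n, MvPolynomial.eval t (P n) ≠ 0) →
        ∀ A : Matrix (Fin 2) (Fin 5) (MvPolynomial (Fin 6) ℂ),
          A = !![(1 : MvPolynomial (Fin 6) ℂ), 0, X 0, X 1, X 2; 0, 1, X 3, X 4, X 5] →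
        ∀ J : Ideal (MvPolynomial (Fin 6) ℂ),
          J = Ideal.span
            {∑ s : {p : Fin 5 × Fin 5 // p.1 < p.2},
                C (t (Sum.inl s)) * (A 0 s.1.1 * A 1 s.1.2 - A 0 s.1.2 * A 1 s.1.1),
             ∑ s : {p : Fin 5 × Fin 5 // p.1 < p.2}, ∑ s' : {p : Fin 5 × Fin 5 // p.1 < p.2},
                C (t (Sum.inr (s, s'))) *
                  (A 0 s.1.1 * A 1 s.1.2 - A 0 s.1.2 * A 1 s.1.1) *
                  (A 0 s'.1.1 * A 1 s'.1.2 - A 0 s'.1.2 * A 1 s'.1.1)} →
        (∀ φ : (MvPolynomial (Fin 6) ℂ ⧸ J) →ₐ[ℂ] FractionRing (MvPolynomial (Fin 4) ℂ),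
          Function.Injective φ →
        ∀ (k : ℕ) (g : {p : Fin 5 × Fin 5 // p.1 < p.2} → MvPolynomial (Fin 4) ℂ),
          (∀ s, (g s).totalDegree ≤ k) →
          g ⟨(0, 1), by decide⟩ ≠ 0 →
          (∀ s : {p : Fin 5 × Fin 5 // p.1 < p.2},
            φ (Ideal.Quotient.mk J (A 0 s.1.1 * A 1 s.1.2 - A 0 s.1.2 * A 1 s.1.1)) *
              algebraMap (MvPolynomial (Fin 4) ℂ) (FractionRing (MvPolynomial (Fin 4) ℂ))
                (g ⟨(0, 1), by decide⟩) =
              algebraMap (MvPolynomial (Fin 4) ℂ) (FractionRing (MvPolynomial (Fin 4) ℂ)) (g s)) →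
          FiniteDimensional (IntermediateField.adjoin ℂ (Set.range φ))
              (FractionRing (MvPolynomial (Fin 4) ℂ)) ∧
            82 * (Module.finrank (IntermediateField.adjoin ℂ (Set.range φ))
              (FractionRing (MvPolynomial (Fin 4) ℂ)) : ℝ≥0∞) ≤ 5 * selfInt (derivatives k g) ∧
            selfInt (derivatives k g) ≤ ((k - 1 : ℕ) : ℝ≥0∞) ^ 4 ∧
            ∀ m : Fin 5 → ℕ, (∀ i, m i ≤ k) → MultiplicityAt k m g →
              82 * (Module.finrank (IntermediateField.adjoin ℂ (Set.range φ))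
                (FractionRing (MvPolynomial (Fin 4) ℂ)) : ℤ) ≤
                5 * ∑ u : Finset (Fin 5), (-1) ^ u.card *
                  ((k - 1 - ∑ i ∈ u, (k - m i) : ℕ) : ℤ) ^ 4) ∧
        ∀ (N : ℕ)
          (φ : (MvPolynomial (Fin 6) ℂ ⧸ J) →ₐ[ℂ] FractionRing (MvPolynomial (Fin N) ℂ)),
          Function.Injective φ →
        ∀ (k : ℕ) (g : {p : Fin 5 × Fin 5 // p.1 < p.2} → MvPolynomial (Fin N) ℂ),
          (∀ s, (g s).totalDegree ≤ k) →
          g ⟨(0, 1), by decide⟩ ≠ 0 →
          (∀ s : {p : Fin 5 × Fin 5 // p.1 < p.2},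
            φ (Ideal.Quotient.mk J (A 0 s.1.1 * A 1 s.1.2 - A 0 s.1.2 * A 1 s.1.1)) *
              algebraMap (MvPolynomial (Fin N) ℂ) (FractionRing (MvPolynomial (Fin N) ℂ))
                (g ⟨(0, 1), by decide⟩) =
              algebraMap (MvPolynomial (Fin N) ℂ) (FractionRing (MvPolynomial (Fin N) ℂ)) (g s)) →
          4 ≤ k := by
  classical
  refine generic _ fun t hinj A hA J hJ => ?_
  subst hA
  have hJ' : J = Ideal.span {Lx (fun i => C (t i)) X, Qx (fun i => C (t i)) X} := hJ
  refine ⟨?_, ?_⟩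
  · intro φ hφ k g hdeg hg0 hrel
    obtain ⟨hGen, hq, hqpl⟩ := gen_of hinj hJ' φ hφ
    have hrel' : ∀ s, pl (fun i => φ (Ideal.Quotient.mk J (X i))) s * al (g s01) = al (g s) := by
      intro s
      rw [← hqpl]
      exact hrel s
    have hk : k ≠ 0 := by
      have := four_le hGen hdeg hg0 hrel'
      omega
    obtain ⟨h1, h2⟩ := jacG hk hGen hg0 hrel'
    have hE := adj_eq φ hq
    rw [hE]
    refine ⟨h1, h2, mvi_dv_le hk g hdeg, fun m hm hmult => ?_⟩
    exact multG hk hGen hg0 hrel' m hm hmult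
  · intro N φ hφ k g hdeg hg0 hrel
    obtain ⟨hGen, hq, hqpl⟩ := gen_of hinj hJ' φ hφ
    have hrel' : ∀ s, pl (fun i => φ (Ideal.Quotient.mk J (X i))) s * alN N (g s01) =
        alN N (g s) := by
      intro s
      rw [← hqpl]
      exact hrel s
    obtain ⟨ξ', g', hG', hd', h0', hr'⟩ := restrictGM hGen hdeg hg0 hrel'
    exact four_le hG' hd' h0' hr'

end Pool.Agent.Results.MP_274aea_ag.ParametrizationDegreeBound
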