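import Pool.Agent.Run7.h457.DB.GM

/-!
# Rational Gushel-Mukai fourfolds are Hodge special, and their discriminants

Let `X` be a smooth Gushel-Mukai fourfold, `A(X) = H^{2,2}(X) ∩ H⁴(X, ℤ)` (of rank at least two, of rank
two for the very general `X`) and `T(X)` its transcendental rational Hodge structure (of K3 type, rank
`24 - rk A(X)`).

1. If `rk A(X) = 2` (the very general `X`) then `X` is not rational.

2. If `X` is rational then `T(X)(1)` is isomorphic, as a rational Hodge structure, to `T(S)` for a minimal
surface `S` with nef canonical bundle and `p_g(S) = 1`, and `ρ(S) + K_S² + 2 ≤ rk A(X)`.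

3. If `X` is rational and `rk A(X) = 3` then `S` is a K3 surface of Picard number one; if moreover
`End T(X) = ℚ` then the discriminant of `A(X)` is a sum of two squares of rational numbers (so of
integers). Hence the very general members of the other Hodge special divisors, for example of
discriminant `12`, are not rational.

The isomorphism of Hodge structures is an isometry only up to a rational factor; the quadratic forms are
treated completely in Lean. The theorems on Hodge atoms (Katzarkov, Kontsevich, Pantev, Yu), weak
factorization and surfaces are hypotheses (`KnownCubic`, `GMFacts`).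
-/

set_option autoImplicit false

namespace Pool.Agent.Results.MP_274aea_ag.RationalImpliesSpecial

open Run7.H457.DB

theorem result (W : World) (C : Cub W) (K : KnownCubic C) (IsGM : W.V → Prop)
    (G : GMFacts C IsGM) (X : W.V) (hX : IsGM X) :
    (C.rA X ≤ 2 → ¬ Rational W X) ∧
    (Rational W X →
      (∃ S, IsMin C S ∧ C.T X = C.T S ∧ C.rho S + C.K2 S + 2 ≤ C.rA X ∧ 1 ≤ C.rho S) ∧
      (C.rA X = 3 → ∃ S, C.IsK3 S ∧ C.rho S = 1 ∧ C.T X = C.T S) ∧
      (C.rA X = 3 → C.EndQ (C.T X) → ∃ a b : ℚ, (C.disc X : ℚ) = a ^ 2 + b ^ 2)) := by
  refine ⟨fun h hr => ?_, fun hr => ⟨rational_gm K G hX hr, fun h3 => rank_three_gm K G hX hr h3,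
    fun h3 hE => rank_three_norm_gm K G hX hr h3 hE⟩⟩
  obtain ⟨S, _, _, h1, h2⟩ := rational_gm K G hX hr
  omega

end Pool.Agent.Results.MP_274aea_ag.RationalImpliesSpecial
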