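import Mathlib
import Pool.Agent.Run7.h164.GQ

/-!
# Parametrizations of the very general Gushel-Mukai fourfold with bounded degree in some variables

A bound for the degree of a parametrization by polynomials of degree at most `a` in each of some
variables and of total degree at most `k` in the others. In particular no such polynomials with one
variable of degree at most two and total degree at most two in the others exist; and if the
fourfold is dominated by polynomials with one variable of degree at most four and total degree at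
most two in the others then it is rational.
-/

set_option autoImplicit false

namespace Pool.Agent.Results.MP_274aea_ag.SeparateDegreesBound

open MvPolynomial Run7.h164.GM

/-- The homomorphism `φ` from the coordinate ring of the chart to the field of rational functions
in `N` variables is injective, and the Plücker coordinates (the maximal minors of `A`, the first of
which is `1`) are mapped to the ratios `g s / g (0, 1)` of the given polynomials: the polynomials
`g` give a dominant rational map to the fourfold, and `φ` is the pullback. -/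
def GivenBy {N : ℕ} {J : Ideal (MvPolynomial (Fin 6) ℂ)}
    (A : Matrix (Fin 2) (Fin 5) (MvPolynomial (Fin 6) ℂ))
    (φ : (MvPolynomial (Fin 6) ℂ ⧸ J) →ₐ[ℂ] FractionRing (MvPolynomial (Fin N) ℂ))
    (g : {p : Fin 5 × Fin 5 // p.1 < p.2} → MvPolynomial (Fin N) ℂ) : Prop :=
  Function.Injective φ ∧ g ⟨(0, 1), by decide⟩ ≠ 0 ∧
    ∀ s : {p : Fin 5 × Fin 5 // p.1 < p.2},
      φ (Ideal.Quotient.mk J (A 0 s.1.1 * A 1 s.1.2 - A 0 s.1.2 * A 1 s.1.1)) *
        algebraMap (MvPolynomial (Fin N) ℂ) (FractionRing (MvPolynomial (Fin N) ℂ))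
          (g ⟨(0, 1), by decide⟩) =
        algebraMap (MvPolynomial (Fin N) ℂ) (FractionRing (MvPolynomial (Fin N) ℂ)) (g s)

/-- The subfield generated by the image of the coordinate ring. -/
noncomputable def imageField {J : Ideal (MvPolynomial (Fin 6) ℂ)}
    (φ : (MvPolynomial (Fin 6) ℂ ⧸ J) →ₐ[ℂ] FractionRing (MvPolynomial (Fin 4) ℂ)) :
    IntermediateField ℂ (FractionRing (MvPolynomial (Fin 4) ℂ)) :=
  IntermediateField.adjoin ℂ (Set.range φ)

/-- The polynomials `g s` have degree at most `a` in each variable of `V`, and total degree at most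
`k` in the other variables. -/
def DegreeIn {N : ℕ} (V : Finset (Fin N)) (a k : ℕ)
    (g : {p : Fin 5 × Fin 5 // p.1 < p.2} → MvPolynomial (Fin N) ℂ) : Prop :=
  ∀ s, ∀ α ∈ (g s).support, (∀ l ∈ V, α l ≤ a) ∧ ∑ l ∈ Vᶜ, α l ≤ k

theorem aff {N n : ℕ} (c : Fin N → ℂ) (A : Fin N → Fin n → ℂ) (l : Fin N) :
    (TH314.PD.sub c A l).totalDegree ≤ 1 := by
  unfold TH314.PD.sub
  refine (totalDegree_add _ _).trans (max_le (by simp) ?_)
  refine totalDegree_finsetSum_le fun s _ => ?_
  refine (totalDegree_mul _ _).trans ?_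
  rw [totalDegree_C, totalDegree_X, zero_add]

theorem result :
    ∃ P : ℕ → MvPolynomial ({p : Fin 5 × Fin 5 // p.1 < p.2} ⊕
        ({p : Fin 5 × Fin 5 // p.1 < p.2} × {p : Fin 5 × Fin 5 // p.1 < p.2})) ℂ,
      (∀ n, P n ≠ 0) ∧
      ∀ t : ({p : Fin 5 × Fin 5 // p.1 < p.2} ⊕
          ({p : Fin 5 × Fin 5 // p.1 < p.2} × {p : Fin 5 × Fin 5 // p.1 < p.2})) → ℂ,
        (∀ n, MvPolynomial.eval t (P n) ≠ 0) →
        ∀ A : Matrix (Fin 2) (Fin 5) (MvPolynomial (Fin 6) ℂ),
          A = !![(1 : MvPolynomial (Fin 6) ℂ), 0, X 0, X 1, X 2; 0, 1, X 3, X 4, X 5] →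
        ∀ J : Ideal (MvPolynomial (Fin 6) ℂ),
          J = Ideal.span
            {∑ s : {p : Fin 5 × Fin 5 // p.1 < p.2},
                C (t (Sum.inl s)) * (A 0 s.1.1 * A 1 s.1.2 - A 0 s.1.2 * A 1 s.1.1),
             ∑ s : {p : Fin 5 × Fin 5 // p.1 < p.2}, ∑ s' : {p : Fin 5 × Fin 5 // p.1 < p.2},
                C (t (Sum.inr (s, s'))) *
                  (A 0 s.1.1 * A 1 s.1.2 - A 0 s.1.2 * A 1 s.1.1) *
                  (A 0 s'.1.1 * A 1 s'.1.2 - A 0 s'.1.2 * A 1 s'.1.1)} →
        -- four variables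
        (∀ (a k : ℕ) (V : Finset (Fin 4))
          (φ : (MvPolynomial (Fin 6) ℂ ⧸ J) →ₐ[ℂ] FractionRing (MvPolynomial (Fin 4) ℂ))
          (g : {p : Fin 5 × Fin 5 // p.1 < p.2} → MvPolynomial (Fin 4) ℂ),
          1 ≤ a → 2 ≤ k → DegreeIn V a k g → GivenBy A φ g →
          FiniteDimensional (imageField φ) (FractionRing (MvPolynomial (Fin 4) ℂ)) ∧
          82 * Module.finrank (imageField φ) (FractionRing (MvPolynomial (Fin 4) ℂ)) *
            ((k - 1) ^ V.card * (4 - V.card).factorial) ≤
            120 * (a ^ V.card * k ^ V.card * (k - 1) ^ (4 - V.card))) ∧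
        -- any number of variables
        (∀ (N a k : ℕ) (V : Finset (Fin N))
          (φ : (MvPolynomial (Fin 6) ℂ ⧸ J) →ₐ[ℂ] FractionRing (MvPolynomial (Fin N) ℂ))
          (g : {p : Fin 5 × Fin 5 // p.1 < p.2} → MvPolynomial (Fin N) ℂ),
          1 ≤ a → 2 ≤ k → DegreeIn V a k g → GivenBy A φ g →
          ∃ (σ : Fin N → MvPolynomial (Fin 4) ℂ) (r : ℕ)
            (φ' : (MvPolynomial (Fin 6) ℂ ⧸ J) →ₐ[ℂ] FractionRing (MvPolynomial (Fin 4) ℂ)),
            (∀ l, (σ l).totalDegree ≤ 1) ∧ r ≤ V.card ∧ r ≤ 4 ∧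
            GivenBy A φ' (fun s => aeval σ (g s)) ∧
            FiniteDimensional (imageField φ') (FractionRing (MvPolynomial (Fin 4) ℂ)) ∧
            82 * Module.finrank (imageField φ') (FractionRing (MvPolynomial (Fin 4) ℂ)) *
              ((k - 1) ^ r * (4 - r).factorial) ≤ 120 * (a ^ r * k ^ r * (k - 1) ^ (4 - r))) ∧
        -- degree at most two in one variable, and total degree at most two in the others
        (∀ (N : ℕ) (j : Fin N)
          (φ : (MvPolynomial (Fin 6) ℂ ⧸ J) →ₐ[ℂ] FractionRing (MvPolynomial (Fin N) ℂ))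
          (g : {p : Fin 5 × Fin 5 // p.1 < p.2} → MvPolynomial (Fin N) ℂ),
          DegreeIn {j} 2 2 g → ¬ GivenBy A φ g) ∧
        -- degree at most four in one variable, and total degree at most two in the others
        (∀ (N : ℕ) (j : Fin N)
          (φ : (MvPolynomial (Fin 6) ℂ ⧸ J) →ₐ[ℂ] FractionRing (MvPolynomial (Fin N) ℂ))
          (g : {p : Fin 5 × Fin 5 // p.1 < p.2} → MvPolynomial (Fin N) ℂ),
          DegreeIn {j} 4 2 g → GivenBy A φ g →
          J.IsPrime ∧ Nonempty (FractionRing (MvPolynomial (Fin 6) ℂ ⧸ J) ≃ₐ[ℂ]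
            FractionRing (MvPolynomial (Fin 4) ℂ))) := by
  classical
  refine generic _ fun t hinj A hA J hJ => ?_
  subst hA
  have hJ' : J = Ideal.span {Lx (fun i => C (t i)) X, Qx (fun i => C (t i)) X} := hJ
  have four : ∀ (a k : ℕ) (V : Finset (Fin 4)) (φ : (MvPolynomial (Fin 6) ℂ ⧸ J) →ₐ[ℂ]
      FractionRing (MvPolynomial (Fin 4) ℂ))
      (g : {p : Fin 5 × Fin 5 // p.1 < p.2} → MvPolynomial (Fin 4) ℂ),
      1 ≤ a → 2 ≤ k → DegreeIn V a k g →
      GivenBy (!![(1 : MvPolynomial (Fin 6) ℂ), 0, X 0, X 1, X 2; 0, 1, X 3, X 4, X 5]) φ g →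
      FiniteDimensional (imageField φ) (FractionRing (MvPolynomial (Fin 4) ℂ)) ∧
      82 * Module.finrank (imageField φ) (FractionRing (MvPolynomial (Fin 4) ℂ)) *
        ((k - 1) ^ V.card * (4 - V.card).factorial) ≤
        120 * (a ^ V.card * k ^ V.card * (k - 1) ^ (4 - V.card)) := by
    intro a k V φ g ha hk hV hg
    obtain ⟨hφ, hg0, hrel⟩ := hg
    obtain ⟨hGen, hq, hqpl⟩ := gen_of hinj hJ' φ hφ
    have hrel' : ∀ s, pl (fun i => φ (Ideal.Quotient.mk J (X i))) s * al (g s01) = al (g s) := by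
      intro s
      rw [← hqpl]
      exact hrel s
    have hVn : V.card ≤ 4 := by
      have := Finset.card_le_univ V
      rwa [Fintype.card_fin] at this
    have hc : Vᶜ.card = 4 - V.card := by
      rw [Finset.card_compl, Fintype.card_fin]
    have h1 := sepG (e := a) ha hk Vᶜ hGen (fun s α hα => ⟨fun l hl => (hV s α hα).1 l (by
        rw [Finset.mem_compl, not_not] at hl
        exact hl), (hV s α hα).2⟩) hg0 hrel'
    rw [hc, show 4 - (4 - V.card) = V.card by omega] at h1
    have hE := adj_eq φ hq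
    unfold imageField
    rw [hE]
    exact h1
  have many : ∀ (N a k : ℕ) (V : Finset (Fin N))
      (φ : (MvPolynomial (Fin 6) ℂ ⧸ J) →ₐ[ℂ] FractionRing (MvPolynomial (Fin N) ℂ))
      (g : {p : Fin 5 × Fin 5 // p.1 < p.2} → MvPolynomial (Fin N) ℂ),
      1 ≤ a → 2 ≤ k → DegreeIn V a k g →
      GivenBy (!![(1 : MvPolynomial (Fin 6) ℂ), 0, X 0, X 1, X 2; 0, 1, X 3, X 4, X 5]) φ g →
      ∃ (σ : Fin N → MvPolynomial (Fin 4) ℂ) (r : ℕ)
        (φ' : (MvPolynomial (Fin 6) ℂ ⧸ J) →ₐ[ℂ] FractionRing (MvPolynomial (Fin 4) ℂ)),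
        (∀ l, (σ l).totalDegree ≤ 1) ∧ r ≤ V.card ∧ r ≤ 4 ∧
        GivenBy (!![(1 : MvPolynomial (Fin 6) ℂ), 0, X 0, X 1, X 2; 0, 1, X 3, X 4, X 5]) φ'
          (fun s => aeval σ (g s)) ∧
        FiniteDimensional (imageField φ') (FractionRing (MvPolynomial (Fin 4) ℂ)) ∧
        82 * Module.finrank (imageField φ') (FractionRing (MvPolynomial (Fin 4) ℂ)) *
          ((k - 1) ^ r * (4 - r).factorial) ≤ 120 * (a ^ r * k ^ r * (k - 1) ^ (4 - r)) := by
    intro N a k V φ g ha hk hV hg
    obtain ⟨hφ, hg0, hrel⟩ := hg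
    obtain ⟨hGen, hq, hqpl⟩ := gen_of hinj hJ' φ hφ
    have hrel' : ∀ s, pl (fun i => φ (Ideal.Quotient.mk J (X i))) s * alN N (g s01) =
        alN N (g s) := by
      intro s
      rw [← hqpl]
      exact hrel s
    obtain ⟨c, B, f, f1, f2, f3, f4, h01, ξ', hG', hr'⟩ := mixGM V hGen hg0 hrel'
    obtain ⟨φ', hφ', hq'⟩ := phi_of hJ' hG'
    set S : Finset (Fin 4) := Finset.univ.filter fun s => f s = none with hS
    have h1 := sepG (e := a) (k := k) ha hk S (g := fun s => aeval (TH314.PD.sub c B) (g s)) hG'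
      (fun s => TH920.MD.mix_deg c B f f1 f3 f4 (hV s)) h01 hr'
    have hSn : S.card ≤ 4 := by
      have := Finset.card_le_univ S
      rwa [Fintype.card_fin] at this
    have hcard : Sᶜ.card ≤ V.card := by
      have e1 : (Sᶜ.image f).card = Sᶜ.card := by
        refine Finset.card_image_of_injOn ?_
        intro s hs s' hs' hss
        have hs1 : f s ≠ none := by
          intro h
          exact Finset.mem_compl.1 hs (Finset.mem_filter.2 ⟨Finset.mem_univ _, h⟩)
        obtain ⟨l, hl⟩ := Option.ne_none_iff_exists'.1 hs1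
        exact f2 s s' l hl (hss ▸ hl)
      have e2 : Sᶜ.image f ⊆ V.image some := by
        intro o ho
        obtain ⟨s, hs, rfl⟩ := Finset.mem_image.1 ho
        have hs1 : f s ≠ none := by
          intro h
          exact Finset.mem_compl.1 hs (Finset.mem_filter.2 ⟨Finset.mem_univ _, h⟩)
        obtain ⟨l, hl⟩ := Option.ne_none_iff_exists'.1 hs1
        rw [hl]
        exact Finset.mem_image.2 ⟨l, f1 s l hl, rfl⟩
      rw [← e1]
      exact (Finset.card_le_card e2).trans Finset.card_image_le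
    rw [Finset.card_compl, Fintype.card_fin] at hcard
    have h6 : 4 - (4 - S.card) = S.card := by omega
    have hE := adj_eq φ' hq'
    refine ⟨TH314.PD.sub c B, 4 - S.card, φ', aff c B, hcard, by omega, ⟨hφ', h01, fun s => ?_⟩, ?_⟩
    · have h4 : φ' (Ideal.Quotient.mk J (pl X s)) = pl ξ' s := by
        rw [hq', aeval_pl]
      have h5 := hr' s
      rw [← h4] at h5
      exact h5
    · unfold imageField
      rw [hE, h6]
      exact h1
  refine ⟨four, many, ?_, ?_⟩
  · intro N j φ g hV hg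
    obtain ⟨σ, r, φ', -, hr1, hr2, -, hfd, h4⟩ := many N 2 2 {j} φ g (by norm_num) le_rfl hV hg
    rw [Finset.card_singleton] at hr1
    have h5 : 0 < Module.finrank (imageField φ') (FractionRing (MvPolynomial (Fin 4) ℂ)) :=
      Module.finrank_pos
    have hr : r = 0 ∨ r = 1 := by omega
    rcases hr with rfl | rfl
    · norm_num [Nat.factorial] at h4
      omega
    · norm_num [Nat.factorial] at h4
      omega
  · intro N j φ g hV hg
    obtain ⟨σ, r, φ', -, hr1, hr2, hg', hfd, h4⟩ := many N 4 2 {j} φ g (by norm_num) le_rfl hV hg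
    rw [Finset.card_singleton] at hr1
    have h5 : 0 < Module.finrank (imageField φ') (FractionRing (MvPolynomial (Fin 4) ℂ)) :=
      Module.finrank_pos
    refine rat_of φ' hg'.1 ?_
    change Module.finrank (imageField φ') (FractionRing (MvPolynomial (Fin 4) ℂ)) = 1
    have hr : r = 0 ∨ r = 1 := by omega
    rcases hr with rfl | rfl
    · norm_num [Nat.factorial] at h4
      omega
    · norm_num [Nat.factorial] at h4
      omega

end Pool.Agent.Results.MP_274aea_ag.SeparateDegreesBound
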